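import Mathlib

/-!
# Earth mover's distance under a random relabeling of the cube

Let `H` be a set of `M` points of the cube `{0, 1} ^ n`, let `L` be the set of the points at
Hamming distance more than `2 R` from `H`, and let `X` give total mass `1 / 2` uniformly to `H` and
total mass `1 / 2` uniformly to `L`. Let `a` be the mass of a point of `L` and `τ = 1 / (2 M) + a`.
The property `D` says that the points of mass at least `τ` have total mass at least `M τ`. To reach
`D` from `X` one has to move a mass of order `M a` over a distance of more than `R` coordinates. For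
a random bijection `π` most points of `π H` have a neighbour in `π L`, so that it suffices to move
a mass of `M a` over a distance of about one coordinate.
-/

open Finset Filter Topology

namespace Pool.Agent.Results.MP_3e89d2_lc.RandomRelabeling

/-- The cube `{0, 1} ^ n`. -/
abbrev Cube (n : ℕ) : Type := Fin n → Bool

/-- The relative Hamming distance. -/
noncomputable def relDist {n : ℕ} (x y : Cube n) : ℝ := (hammingDist x y : ℝ) / n

/-- `P` is a probability distribution on the cube. -/
def IsDist {n : ℕ} (P : Cube n → ℝ) : Prop := (∀ x, 0 ≤ P x) ∧ ∑ x, P x = 1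

/-- `w` is a transport plan from `P` to `Q`. -/
def IsPlan {n : ℕ} (P Q : Cube n → ℝ) (w : Cube n → Cube n → ℝ) : Prop :=
  (∀ x y, 0 ≤ w x y) ∧ (∀ x, ∑ y, w x y = P x) ∧ ∀ y, ∑ x, w x y = Q y

/-- The earth mover's distance under the relative Hamming distance. -/
noncomputable def emd {n : ℕ} (P Q : Cube n → ℝ) : ℝ :=
  sInf {c : ℝ | ∃ w, IsPlan P Q w ∧ c = ∑ x, ∑ y, w x y * relDist x y}

/-- The distribution of `f` applied to a sample of `P`. -/
def push {n : ℕ} (f : Cube n → Cube n) (P : Cube n → ℝ) : Cube n → ℝ :=
  fun z => ∑ x, if f x = z then P x else 0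

/-- `D` is a set of distributions which is closed under mapping. -/
def IsClosedProperty {n : ℕ} (D : Set (Cube n → ℝ)) : Prop :=
  (∀ Y ∈ D, IsDist Y) ∧ ∀ Y ∈ D, ∀ f : Cube n → Cube n, push f Y ∈ D

/-- `X` is `ε`-far from `D`. -/
def IsFar {n : ℕ} (D : Set (Cube n → ℝ)) (X : Cube n → ℝ) (ε : ℝ) : Prop :=
  ∀ Y ∈ D, ε ≤ emd X Y

open Classical in
/-- The probability, over a uniformly random bijection `π` of the cube, that `π(X)` is
`ε`-far from `D`. -/
noncomputable def farProb {n : ℕ} (D : Set (Cube n → ℝ)) (X : Cube n → ℝ) (ε : ℝ) : ℝ :=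
  ((univ.filter fun π : Equiv.Perm (Cube n) => IsFar D (push π X) ε).card : ℝ) /
    Fintype.card (Equiv.Perm (Cube n))

/-! ### Hamming balls -/

/-- The Hamming ball. -/
def ball {n : ℕ} (x : Cube n) (r : ℕ) : Finset (Cube n) := univ.filter fun y => hammingDist x y ≤ r

lemma mem_ball {n : ℕ} {x y : Cube n} {r : ℕ} : y ∈ ball x r ↔ hammingDist x y ≤ r := by
  simp [ball]

/-- Change one coordinate. -/
def flip {n : ℕ} (i : Fin n) (x : Cube n) : Cube n := Function.update x i (!x i)

lemma flip_flip {n : ℕ} (i : Fin n) (x : Cube n) : flip i (flip i x) = x := by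
  unfold flip
  simp

lemma flip_ne {n : ℕ} (i : Fin n) (x : Cube n) : flip i x ≠ x := by
  intro h
  have := congrFun h i
  simp [flip] at this

lemma flip_injective {n : ℕ} (i : Fin n) : Function.Injective (flip i) := by
  intro x y h
  rw [← flip_flip i x, h, flip_flip]

lemma hammingDist_flip {n : ℕ} (i : Fin n) (x : Cube n) : hammingDist (flip i x) x = 1 := by
  unfold hammingDist
  rw [card_eq_one]
  refine ⟨i, ?_⟩
  ext j
  rw [mem_filter, mem_singleton]
  unfold flip
  by_cases h : j = i
  · subst h
    rw [Function.update_self]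
    simp
  · rw [Function.update_of_ne h]
    simp [h]

lemma card_ball_le {n : ℕ} (x : Cube n) (r : ℕ) : (ball x r).card ≤ (n + 1) ^ r := by
  induction r with
  | zero =>
    have : ball x 0 = {x} := by
      ext y
      rw [mem_ball, Nat.le_zero, hammingDist_eq_zero, mem_singleton, eq_comm]
    rw [this]
    simp
  | succ r ih =>
    have hsub : ball x (r + 1) ⊆ ball x r ∪ univ.biUnion fun i => (ball x r).image (flip i) := by
      intro y hy
      rw [mem_ball] at hy
      rcases Nat.lt_or_ge r (hammingDist x y) with h | h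
      · rw [mem_union, mem_biUnion]
        right
        have hpos : 0 < hammingDist x y := by omega
        rw [hammingDist_pos] at hpos
        obtain ⟨i, hi⟩ := Function.ne_iff.1 hpos
        refine ⟨i, mem_univ _, ?_⟩
        rw [mem_image]
        refine ⟨flip i y, ?_, flip_flip i y⟩
        rw [mem_ball]
        have h1 : hammingDist x (flip i y) < hammingDist x y := by
          unfold hammingDist
          refine card_lt_card ?_
          rw [ssubset_iff_of_subset]
          · refine ⟨i, by simpa using hi, ?_⟩
            rw [mem_filter]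
            rintro ⟨-, h2⟩
            apply h2
            unfold flip
            rw [Function.update_self]
            cases hx : x i <;> cases hyy : y i <;> simp_all
          · intro j hj
            rw [mem_filter] at hj ⊢
            refine ⟨mem_univ _, ?_⟩
            by_cases hji : j = i
            · rw [hji]
              exact hi
            · have h2 := hj.2
              unfold flip at h2
              rwa [Function.update_of_ne hji] at h2
        omega
      · rw [mem_union, mem_ball]
        exact Or.inl h
    calc (ball x (r + 1)).card ≤ (ball x r).card +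
          (univ.biUnion fun i => (ball x r).image (flip i)).card :=
          (card_le_card hsub).trans (card_union_le _ _)
      _ ≤ (ball x r).card + ∑ _i : Fin n, (ball x r).card := by
          refine Nat.add_le_add_left (card_biUnion_le.trans (sum_le_sum fun i _ => ?_)) _
          exact card_image_le
      _ = (ball x r).card * (n + 1) := by
          rw [sum_const, card_univ, Fintype.card_fin, smul_eq_mul]
          ring
      _ ≤ (n + 1) ^ r * (n + 1) := Nat.mul_le_mul_right _ ih
      _ = (n + 1) ^ (r + 1) := (pow_succ _ _).symm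

/-! ### The earth mover's distance -/

section Emd

variable {n : ℕ}

lemma relDist_nonneg (x y : Cube n) : 0 ≤ relDist x y := by
  unfold relDist
  positivity

lemma relDist_le_one (x y : Cube n) : relDist x y ≤ 1 := by
  unfold relDist
  rcases Nat.eq_zero_or_pos n with rfl | hn
  · simp
  · rw [div_le_one (by exact_mod_cast hn)]
    have h := hammingDist_le_card_fintype (x := x) (y := y)
    rw [Fintype.card_fin] at h
    exact_mod_cast h

lemma relDist_self (x : Cube n) : relDist x x = 0 := by
  unfold relDist
  simp

lemma exists_plan {P Q : Cube n → ℝ} (hP : IsDist P) (hQ : IsDist Q) : ∃ w, IsPlan P Q w := by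
  refine ⟨fun x y => P x * Q y, fun x y => mul_nonneg (hP.1 x) (hQ.1 y), fun x => ?_, fun y => ?_⟩
  · rw [← mul_sum, hQ.2, mul_one]
  · rw [← sum_mul, hP.2, one_mul]

lemma le_emd {P Q : Cube n → ℝ} (hP : IsDist P) (hQ : IsDist Q) {c : ℝ}
    (h : ∀ w, IsPlan P Q w → c ≤ ∑ x, ∑ y, w x y * relDist x y) : c ≤ emd P Q := by
  unfold emd
  obtain ⟨w, hw⟩ := exists_plan hP hQ
  refine le_csInf ⟨_, w, hw, rfl⟩ ?_
  rintro _ ⟨w, hw, rfl⟩
  exact h w hw

lemma emd_le {P Q : Cube n → ℝ} {w : Cube n → Cube n → ℝ} (hw : IsPlan P Q w) :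
    emd P Q ≤ ∑ x, ∑ y, w x y * relDist x y := by
  unfold emd
  refine csInf_le ⟨0, ?_⟩ ⟨w, hw, rfl⟩
  rintro _ ⟨w, hw, rfl⟩
  exact sum_nonneg fun x _ => sum_nonneg fun y _ => mul_nonneg (hw.1 x y) (relDist_nonneg x y)

/-- Moving every point `x` to `f x`. -/
lemma emd_push_le {P : Cube n → ℝ} (hP : ∀ x, 0 ≤ P x) (f : Cube n → Cube n) :
    emd P (push f P) ≤ ∑ x, P x * relDist x (f x) := by
  have hw : IsPlan P (push f P) (fun x y => if f x = y then P x else 0) := by
    refine ⟨fun x y => ?_, fun x => ?_, fun y => rfl⟩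
    · show 0 ≤ if f x = y then P x else 0
      split_ifs
      · exact hP x
      · exact le_rfl
    · rw [sum_ite_eq]
      simp
  refine (emd_le hw).trans (le_of_eq ?_)
  refine sum_congr rfl fun x _ => ?_
  simp only [ite_mul, zero_mul]
  rw [sum_ite_eq]
  simp

lemma isDist_push {P : Cube n → ℝ} (hP : IsDist P) (f : Cube n → Cube n) : IsDist (push f P) := by
  constructor
  · intro z
    refine sum_nonneg fun x _ => ?_
    split_ifs
    · exact hP.1 x
    · exact le_rfl
  · unfold push
    rw [sum_comm]
    rw [← hP.2]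
    refine sum_congr rfl fun x _ => ?_
    rw [sum_ite_eq]
    simp

lemma push_perm (π : Equiv.Perm (Cube n)) (P : Cube n → ℝ) (z : Cube n) :
    push π P z = P (π.symm z) := by
  unfold push
  rw [sum_eq_single (π.symm z)]
  · simp
  · intro x _ hx
    rw [if_neg]
    rintro rfl
    exact hx (π.symm_apply_apply x).symm
  · intro h
    exact absurd (mem_univ _) h

end Emd

/-! ### The property -/

/-- The points of mass at least `τ` have total mass at least `β`. -/
def prop {n : ℕ} (τ β : ℝ) : Set (Cube n → ℝ) :=
  {Y | IsDist Y ∧ β ≤ ∑ y with τ ≤ Y y, Y y}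

lemma prop_closed {n : ℕ} (τ β : ℝ) : IsClosedProperty (prop τ β : Set (Cube n → ℝ)) := by
  refine ⟨fun Y hY => hY.1, fun Y hY f => ⟨isDist_push hY.1 f, hY.2.trans ?_⟩⟩
  have h1 : ∀ y, Y y ≤ push f Y (f y) := by
    intro y
    unfold push
    calc Y y = if f y = f y then Y y else 0 := by rw [if_pos rfl]
      _ ≤ _ := single_le_sum (f := fun x => if f x = f y then Y x else 0) (fun x _ => by
          show 0 ≤ if f x = f y then Y x else 0
          split_ifs
          · exact hY.1.1 x
          · exact le_rfl) (mem_univ y)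
  calc ∑ y with τ ≤ Y y, Y y ≤ ∑ y with τ ≤ push f Y (f y), Y y := by
        refine sum_le_sum_of_subset_of_nonneg ?_ fun y _ _ => hY.1.1 y
        intro y hy
        rw [mem_filter] at hy ⊢
        exact ⟨hy.1, hy.2.trans (h1 y)⟩
    _ = ∑ z with τ ≤ push f Y z, push f Y z := by
        unfold push
        rw [sum_comm' (t' := univ) (s' := fun x => univ.filter fun z =>
          τ ≤ ∑ x, (if f x = z then Y x else 0)) (by simp)]
        rw [sum_filter]
        refine sum_congr rfl fun y _ => ?_
        rw [sum_filter]
        by_cases h : τ ≤ ∑ x, (if f x = f y then Y x else 0)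
        · rw [if_pos h, sum_eq_single (f y)]
          · rw [if_pos h, if_pos rfl]
          · intro z _ hz
            rw [if_neg (show ¬ f y = z from fun hh => hz hh.symm)]
            simp
          · intro hh
            exact absurd (mem_univ _) hh
        · rw [if_neg h]
          symm
          refine sum_eq_zero fun z _ => ?_
          by_cases hz : f y = z
          · subst hz
            rw [if_neg h]
          · rw [if_neg hz]
            simp

/-! ### The distribution -/

section Example

variable {n : ℕ} (H : Finset (Cube n)) (R : ℕ)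

/-- The points at distance more than `2 R` from `H`. -/
def light : Finset (Cube n) := univ.filter fun x => ∀ h ∈ H, 2 * R < hammingDist h x

lemma disjoint_light : Disjoint H (light H R) := by
  rw [disjoint_left]
  intro x hx hx2
  rw [light, mem_filter] at hx2
  have := hx2.2 x hx
  simp at this

/-- Mass `1 / 2` uniformly on `H` and mass `1 / 2` uniformly on the light points. -/
noncomputable def dist : Cube n → ℝ := fun x =>
  (if x ∈ H then 1 / (2 * (H.card : ℝ)) else 0) +
    if x ∈ light H R then 1 / (2 * ((light H R).card : ℝ)) else 0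

lemma dist_heavy {x : Cube n} (hx : x ∈ H) : dist H R x = 1 / (2 * (H.card : ℝ)) := by
  unfold dist
  rw [if_pos hx, if_neg (disjoint_left.1 (disjoint_light H R) hx), add_zero]

lemma dist_light {x : Cube n} (hx : x ∈ light H R) :
    dist H R x = 1 / (2 * ((light H R).card : ℝ)) := by
  unfold dist
  rw [if_neg (fun h => disjoint_left.1 (disjoint_light H R) h hx), if_pos hx, zero_add]

lemma dist_other {x : Cube n} (hx : x ∉ H) (hx2 : x ∉ light H R) : dist H R x = 0 := by
  unfold dist
  rw [if_neg hx, if_neg hx2, add_zero]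

lemma dist_nonneg (x : Cube n) : 0 ≤ dist H R x := by
  unfold dist
  positivity

lemma isDist_dist (hH : H.Nonempty) (hL : (light H R).Nonempty) : IsDist (dist H R) := by
  refine ⟨dist_nonneg H R, ?_⟩
  unfold dist
  rw [sum_add_distrib, ← sum_filter, ← sum_filter, sum_const, sum_const]
  have h1 : (0 : ℝ) < H.card := by exact_mod_cast card_pos.2 hH
  have h2 : (0 : ℝ) < (light H R).card := by exact_mod_cast card_pos.2 hL
  rw [filter_mem_eq_inter, filter_mem_eq_inter, univ_inter, univ_inter, nsmul_eq_mul, nsmul_eq_mul]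
  field_simp
  norm_num

/-- The mass of a light point. -/
noncomputable def la : ℝ := 1 / (2 * ((light H R).card : ℝ))

/-- The property used. -/
def theProp : Set (Cube n → ℝ) :=
  prop (1 / (2 * (H.card : ℝ)) + la H R) (H.card * (1 / (2 * (H.card : ℝ)) + la H R))

/-- The distribution is far from the property. -/
lemma isFar (hH : H.Nonempty) (hL : (light H R).Nonempty)
    (hbig : 2 * (H.card * (n + 1) ^ R) ≤ (light H R).card) :
    IsFar (theProp H R) (dist H R) (H.card * la H R / 2 * ((R + 1) / n)) := by
  classical
  intro Y hY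
  obtain ⟨hYd, hY2⟩ := hY
  refine le_emd (isDist_dist H R hH hL) hYd fun w hw => ?_
  set a : ℝ := la H R with ha
  set M : ℝ := (H.card : ℝ) with hM
  have hMpos : 0 < M := by
    rw [hM]
    exact_mod_cast card_pos.2 hH
  have hLpos : (0 : ℝ) < (light H R).card := by exact_mod_cast card_pos.2 hL
  have hapos : 0 < a := by
    rw [ha]
    unfold la
    positivity
  set τ : ℝ := 1 / (2 * M) + a with hτ
  set T : Finset (Cube n) := univ.filter fun y => τ ≤ Y y with hT
  set T1 : Finset (Cube n) := T.filter fun y => ∃ h ∈ H, hammingDist h y ≤ R with hT1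
  set T2 : Finset (Cube n) := T.filter fun y => ¬ ∃ h ∈ H, hammingDist h y ≤ R with hT2
  -- the mass which comes from far away
  set far : Cube n → ℝ := fun y => ∑ x with ¬ hammingDist x y ≤ R, w x y with hfar
  set near : Cube n → ℝ := fun y => ∑ x with hammingDist x y ≤ R, w x y with hnear
  have hsplit : ∀ y, Y y = near y + far y := by
    intro y
    rw [← hw.2.2 y, hnear, hfar]
    exact (sum_filter_add_sum_filter_not _ _ _).symm
  have hfar0 : ∀ y, 0 ≤ far y := fun y => sum_nonneg fun x _ => hw.1 x y
  have hcost : (∑ y ∈ T, far y) * ((R + 1) / n) ≤ ∑ x, ∑ y, w x y * relDist x y := by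
    rw [sum_comm, sum_mul]
    calc ∑ y ∈ T, far y * ((R + 1) / n) ≤ ∑ y, far y * ((R + 1) / n) := by
          refine sum_le_sum_of_subset_of_nonneg (filter_subset _ _) fun y _ _ => ?_
          exact mul_nonneg (hfar0 y) (by positivity)
      _ ≤ _ := by
          refine sum_le_sum fun y _ => ?_
          rw [hfar]
          simp only
          rw [sum_mul]
          calc ∑ x with ¬ hammingDist x y ≤ R, w x y * (((R : ℝ) + 1) / n)
              ≤ ∑ x with ¬ hammingDist x y ≤ R, w x y * relDist x y := by
                refine sum_le_sum fun x hx => ?_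
                rw [mem_filter, not_le] at hx
                refine mul_le_mul_of_nonneg_left ?_ (hw.1 x y)
                unfold relDist
                refine div_le_div_of_nonneg_right ?_ (Nat.cast_nonneg _)
                exact_mod_cast hx.2
            _ ≤ _ := sum_le_sum_of_subset_of_nonneg (filter_subset _ _) fun x _ _ =>
                mul_nonneg (hw.1 x y) (relDist_nonneg x y)
  have hw0 : ∀ x y, dist H R x = 0 → w x y = 0 := by
    intro x y hx
    have h1 := hw.2.1 x
    rw [hx] at h1
    exact (sum_eq_zero_iff_of_nonneg fun y _ => hw.1 x y).1 h1 y (mem_univ y)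
  have hwle : ∀ x y, w x y ≤ dist H R x := by
    intro x y
    rw [← hw.2.1 x]
    exact single_le_sum (f := w x) (fun y _ => hw.1 x y) (mem_univ y)
  -- points which are not close to `H`
  have hB : (∑ y ∈ T2, Y y) / 2 ≤ ∑ y ∈ T2, far y := by
    rw [sum_div]
    refine sum_le_sum fun y hy => ?_
    rw [hT2, hT, mem_filter, mem_filter] at hy
    obtain ⟨⟨-, hy1⟩, hy2⟩ := hy
    push Not at hy2
    have h1 : near y ≤ a * (n + 1) ^ R := by
      calc near y ≤ ∑ x ∈ ball y R, a := by
            rw [hnear]
            simp only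
            have hball : (univ.filter fun x : Cube n => hammingDist x y ≤ R) = ball y R := by
              ext x
              rw [mem_filter, mem_ball, hammingDist_comm]
              simp
            rw [hball]
            refine sum_le_sum fun x hx => ?_
            rw [mem_ball] at hx
            by_cases hxH : x ∈ H
            · have := hy2 x hxH
              rw [hammingDist_comm] at hx
              omega
            · by_cases hxL : x ∈ light H R
              · refine (hwle x y).trans (le_of_eq ?_)
                rw [dist_light H R hxL]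
                rfl
              · rw [hw0 x y (dist_other H R hxH hxL)]
                exact hapos.le
        _ = (ball y R).card * a := by rw [sum_const, nsmul_eq_mul]
        _ ≤ ((n + 1) ^ R : ℕ) * a := by
            refine mul_le_mul_of_nonneg_right ?_ hapos.le
            exact_mod_cast card_ball_le y R
        _ = a * (n + 1) ^ R := by push_cast; ring
    have h2 : a * ((n : ℝ) + 1) ^ R ≤ (1 / (2 * M)) / 2 := by
      have h3 : (2 * (M * ((n : ℝ) + 1) ^ R)) ≤ ((light H R).card : ℝ) := by
        rw [hM]
        exact_mod_cast hbig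
      rw [ha]
      unfold la
      rw [div_mul_eq_mul_div, one_mul, div_div, div_le_div_iff₀ (by positivity) (by positivity)]
      nlinarith
    have h3 := hsplit y
    have h4 : (1 / (2 * M)) ≤ Y y := by linarith
    linarith
  -- points close to `H`
  have hA : (∑ y ∈ T1, Y y) - 1 / 2 ≤ ∑ y ∈ T1, far y := by
    have h1 : ∑ y ∈ T1, near y ≤ 1 / 2 := by
      calc ∑ y ∈ T1, near y ≤ ∑ y ∈ T1, ∑ x ∈ H, w x y := by
            refine sum_le_sum fun y hy => ?_
            rw [hT1, mem_filter] at hy
            obtain ⟨-, h, hh, hhy⟩ := hy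
            rw [hnear]
            simp only
            calc ∑ x with hammingDist x y ≤ R, w x y
                = ∑ x ∈ (univ.filter fun x : Cube n => hammingDist x y ≤ R) with x ∈ H, w x y +
                  ∑ x ∈ (univ.filter fun x : Cube n => hammingDist x y ≤ R) with ¬ x ∈ H,
                    w x y := (sum_filter_add_sum_filter_not _ _ _).symm
              _ ≤ ∑ x ∈ H, w x y + 0 := by
                  refine add_le_add ?_ (le_of_eq ?_)
                  · refine sum_le_sum_of_subset_of_nonneg ?_ fun x _ _ => hw.1 x y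
                    intro x hx
                    exact (mem_filter.1 hx).2
                  · refine sum_eq_zero fun x hx => ?_
                    rw [mem_filter, mem_filter] at hx
                    obtain ⟨⟨-, hx1⟩, hx2⟩ := hx
                    refine hw0 x y (dist_other H R hx2 ?_)
                    intro hxL
                    rw [light, mem_filter] at hxL
                    have h5 := hxL.2 h hh
                    have h6 := hammingDist_triangle h y x
                    rw [hammingDist_comm y x] at h6
                    omega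
              _ = _ := add_zero _
        _ ≤ ∑ y, ∑ x ∈ H, w x y := by
            refine sum_le_sum_of_subset_of_nonneg (subset_univ _) fun y _ _ => ?_
            exact sum_nonneg fun x _ => hw.1 x y
        _ = ∑ x ∈ H, dist H R x := by
            rw [sum_comm]
            exact sum_congr rfl fun x _ => hw.2.1 x
        _ = 1 / 2 := by
            rw [sum_congr rfl fun x hx => dist_heavy H R hx, sum_const, nsmul_eq_mul, ← hM]
            field_simp
    have h2 : ∑ y ∈ T1, Y y = ∑ y ∈ T1, near y + ∑ y ∈ T1, far y := by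
      rw [← sum_add_distrib]
      exact sum_congr rfl fun y _ => hsplit y
    linarith
  have hA0 : 0 ≤ ∑ y ∈ T1, far y := sum_nonneg fun y _ => hfar0 y
  have hTfar : ∑ y ∈ T, far y = ∑ y ∈ T1, far y + ∑ y ∈ T2, far y :=
    (sum_filter_add_sum_filter_not _ _ _).symm
  have hTY : ∑ y ∈ T, Y y = ∑ y ∈ T1, Y y + ∑ y ∈ T2, Y y :=
    (sum_filter_add_sum_filter_not _ _ _).symm
  have hY3 : M * τ ≤ ∑ y ∈ T, Y y := hY2
  have hMτ : M * τ = 1 / 2 + M * a := by
    rw [hτ]
    field_simp
  refine le_trans ?_ hcost
  refine mul_le_mul_of_nonneg_right ?_ (by positivity)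
  linarith

/-- The points of `H` whose image has no neighbour in direction `i` in the image of the light
points. -/
def bad (i : Fin n) (π : Equiv.Perm (Cube n)) : Finset (Cube n) :=
  H.filter fun h => ¬ π.symm (flip i (π h)) ∈ light H R

lemma la_pos (hL : (light H R).Nonempty) : 0 < la H R := by
  have hLpos : (0 : ℝ) < (light H R).card := by exact_mod_cast card_pos.2 hL
  unfold la
  exact div_pos one_pos (mul_pos two_pos hLpos)

/-- After a relabeling with few bad points the distribution is close to the property. -/
lemma not_isFar (i : Fin n) (π : Equiv.Perm (Cube n)) (hH : H.Nonempty)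
    (hL : (light H R).Nonempty) (hbig : 2 * H.card ≤ (light H R).card)
    (hbad : ((bad H R i π).card : ℝ) ≤ H.card / n) {ε : ℝ}
    (hε : 2 * (H.card * la H R / n) < ε) :
    ¬ IsFar (theProp H R) (push π (dist H R)) ε := by
  classical
  intro hfar
  set X' : Cube n → ℝ := push π (dist H R) with hX'
  have hX'dist : IsDist X' := isDist_push (isDist_dist H R hH hL) π
  have hX'apply : ∀ x, X' (π x) = dist H R x := by
    intro x
    rw [hX', push_perm, Equiv.symm_apply_apply]
  -- choose distinct light points for the heavy points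
  set G : Finset (Cube n) := (light H R) \ (H.image fun h => π.symm (flip i (π h))) with hG
  have hGcard : (bad H R i π).card ≤ G.card := by
    have h1 : (bad H R i π).card ≤ H.card := card_le_card (filter_subset _ _)
    have h2 : (light H R).card - H.card ≤ G.card := by
      rw [hG]
      refine le_trans ?_ (le_card_sdiff _ _)
      have := card_image_le (s := H) (f := fun h => π.symm (flip i (π h)))
      omega
    omega
  obtain ⟨e⟩ : Nonempty ((bad H R i π) ↪ G) := by
    refine Function.Embedding.nonempty_of_card_le ?_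
    rw [Fintype.card_coe, Fintype.card_coe]
    exact hGcard
  set σ : Cube n → Cube n := fun h =>
    if hh : h ∈ bad H R i π then (e ⟨h, hh⟩ : Cube n) else π.symm (flip i (π h)) with hσ
  have hσL : ∀ h ∈ H, σ h ∈ light H R := by
    intro h hh
    rw [hσ]
    simp only
    split_ifs with h1
    · exact (mem_sdiff.1 (e ⟨h, h1⟩).2).1
    · by_contra h2
      exact h1 (mem_filter.2 ⟨hh, h2⟩)
  have hσinj : Set.InjOn σ H := by
    intro h hh h' hh' heq
    rw [hσ] at heq
    simp only at heq
    split_ifs at heq with h1 h2 h2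
    · have := e.injective (Subtype.ext heq)
      exact congrArg Subtype.val this
    · exfalso
      have h3 := (mem_sdiff.1 (e ⟨h, h1⟩).2).2
      rw [heq] at h3
      exact h3 (mem_image_of_mem _ hh')
    · exfalso
      have h3 := (mem_sdiff.1 (e ⟨h', h2⟩).2).2
      rw [← heq] at h3
      exact h3 (mem_image_of_mem _ hh)
    · have h3 := π.symm.injective heq
      exact π.injective (flip_injective i h3)
  -- the transport map
  set f : Cube n → Cube n := fun y =>
    if hy : ∃ h ∈ H, π (σ h) = y then π hy.choose else y with hf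
  have hf1 : ∀ h ∈ H, f (π (σ h)) = π h := by
    intro h hh
    have hex : ∃ h' ∈ H, π (σ h') = π (σ h) := ⟨h, hh, rfl⟩
    rw [hf]
    simp only
    rw [dif_pos hex]
    have h1 := hex.choose_spec
    congr 1
    exact hσinj h1.1 hh (π.injective h1.2)
  have hf2 : ∀ y, (¬ ∃ h ∈ H, π (σ h) = y) → f y = y := by
    intro y hy
    rw [hf]
    simp only
    rw [dif_neg hy]
  have hf3 : ∀ h ∈ H, f (π h) = π h := by
    intro h hh
    apply hf2
    rintro ⟨h', hh', heq⟩
    have h1 := π.injective heq
    have h2 := hσL h' hh'
    rw [h1] at h2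
    exact disjoint_left.1 (disjoint_light H R) hh h2
  set Y : Cube n → ℝ := push f X' with hY
  have hapos : 0 < la H R := la_pos H R hL
  have hYh : ∀ h ∈ H, 1 / (2 * (H.card : ℝ)) + la H R ≤ Y (π h) := by
    intro h hh
    have hne : π h ≠ π (σ h) := by
      intro h1
      have h2 := hσL h hh
      rw [← π.injective h1] at h2
      exact disjoint_left.1 (disjoint_light H R) hh h2
    have h1 : ∑ x ∈ ({π h, π (σ h)} : Finset (Cube n)), (if f x = π h then X' x else 0) ≤
        Y (π h) := by
      rw [hY]
      unfold push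
      refine sum_le_sum_of_subset_of_nonneg (subset_univ _) fun x _ _ => ?_
      split_ifs
      · exact hX'dist.1 x
      · exact le_rfl
    rw [sum_pair hne, if_pos (hf3 h hh), if_pos (hf1 h hh), hX'apply, hX'apply,
      dist_heavy H R hh, dist_light H R (hσL h hh)] at h1
    exact h1
  have hYD : Y ∈ theProp H R := by
    refine ⟨isDist_push hX'dist f, ?_⟩
    calc (H.card : ℝ) * (1 / (2 * (H.card : ℝ)) + la H R)
        = ∑ _h ∈ H, (1 / (2 * (H.card : ℝ)) + la H R) := by rw [sum_const, nsmul_eq_mul]
      _ ≤ ∑ h ∈ H, Y (π h) := sum_le_sum hYh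
      _ = ∑ y ∈ H.image π, Y y := by
          rw [sum_image fun x _ y _ h => π.injective h]
      _ ≤ _ := by
          refine sum_le_sum_of_subset_of_nonneg ?_ fun y _ _ => (isDist_push hX'dist f).1 y
          intro y hy
          rw [mem_image] at hy
          obtain ⟨h, hh, rfl⟩ := hy
          rw [mem_filter]
          exact ⟨mem_univ _, hYh h hh⟩
  have h1 := hfar Y hYD
  have h2 := emd_push_le hX'dist.1 f
  -- the cost
  have h3 : ∑ x, X' x * relDist x (f x) ≤ 2 * (H.card * la H R / n) := by
    have h4 : ∑ x, X' x * relDist x (f x) = ∑ h ∈ H, la H R * relDist (π (σ h)) (π h) := by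
      rw [← sum_subset (subset_univ (H.image fun h => π (σ h)))]
      · rw [sum_image]
        · refine sum_congr rfl fun h hh => ?_
          rw [hX'apply, hf1 h hh, dist_light H R (hσL h hh)]
          rfl
        · intro h hh h' hh' heq
          exact hσinj hh hh' (π.injective heq)
      · intro x _ hx
        rw [hf2 x, relDist_self, mul_zero]
        rintro ⟨h, hh, rfl⟩
        exact hx (mem_image_of_mem (fun h => π (σ h)) hh)
    rw [h4, ← sum_filter_add_sum_filter_not H (fun h => h ∈ bad H R i π)]
    have h5 : ∑ h ∈ H with h ∈ bad H R i π, la H R * relDist (π (σ h)) (π h) ≤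
        (bad H R i π).card * la H R := by
      calc _ ≤ ∑ _h ∈ H with _h ∈ bad H R i π, la H R := by
            refine sum_le_sum fun h _ => ?_
            calc la H R * relDist (π (σ h)) (π h) ≤ la H R * 1 :=
                  mul_le_mul_of_nonneg_left (relDist_le_one _ _) hapos.le
              _ = _ := mul_one _
        _ = ((H.filter fun h => h ∈ bad H R i π).card : ℝ) * la H R := by
            rw [sum_const, nsmul_eq_mul]
        _ ≤ _ := by
            refine mul_le_mul_of_nonneg_right ?_ hapos.le
            have : (H.filter fun h => h ∈ bad H R i π) ⊆ bad H R i π := fun h hh =>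
              (mem_filter.1 hh).2
            exact_mod_cast card_le_card this
    have h6 : ∑ h ∈ H with ¬ h ∈ bad H R i π, la H R * relDist (π (σ h)) (π h) ≤
        H.card * (la H R * (1 / n)) := by
      calc _ ≤ ∑ _h ∈ H with ¬ _h ∈ bad H R i π, la H R * (1 / n) := by
            refine sum_le_sum fun h hh => ?_
            rw [mem_filter] at hh
            refine mul_le_mul_of_nonneg_left ?_ hapos.le
            rw [hσ]
            simp only
            rw [dif_neg hh.2, Equiv.apply_symm_apply]
            unfold relDist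
            rw [hammingDist_flip]
            simp
        _ = ((H.filter fun h => ¬ h ∈ bad H R i π).card : ℝ) * (la H R * (1 / n)) := by
            rw [sum_const, nsmul_eq_mul]
        _ ≤ _ := by
            refine mul_le_mul_of_nonneg_right ?_ (by positivity)
            exact_mod_cast card_le_card (filter_subset _ _)
    have h7 : ((bad H R i π).card : ℝ) * la H R ≤ H.card / n * la H R :=
      mul_le_mul_of_nonneg_right hbad hapos.le
    calc _ ≤ ((bad H R i π).card : ℝ) * la H R + H.card * (la H R * (1 / n)) := add_le_add h5 h6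
      _ ≤ H.card / n * la H R + H.card * (la H R * (1 / n)) := by linarith
      _ = _ := by ring
  linarith

/-! ### Random bijections -/

lemma card_cube : Fintype.card (Cube n) = 2 ^ n := by simp [Cube]

/-- For `x ≠ h` the point `x` is mapped to the neighbour of the image of `h` by a fraction
`1 / (2 ^ n - 1)` of the bijections. -/
lemma card_perm (i : Fin n) (h x : Cube n) (hx : x ≠ h) :
    (univ.filter fun π : Equiv.Perm (Cube n) => π.symm (flip i (π h)) = x).card * (2 ^ n - 1) =
      Fintype.card (Equiv.Perm (Cube n)) := by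
  classical
  set c : Cube n → ℕ := fun x =>
    (univ.filter fun π : Equiv.Perm (Cube n) => π.symm (flip i (π h)) = x).card with hc
  have h1 : ∀ y, y ≠ h → c y = c x := by
    intro y hy
    rw [hc]
    simp only
    refine card_bij' (fun π _ => π * Equiv.swap x y)
      (fun π _ => π * Equiv.swap x y) ?_ ?_ ?_ ?_
    · intro π hπ
      rw [mem_filter] at hπ ⊢
      refine ⟨mem_univ _, ?_⟩
      rw [Equiv.Perm.mul_apply, Equiv.swap_apply_of_ne_of_ne hx.symm hy.symm]
      rw [Equiv.symm_apply_eq, Equiv.Perm.mul_apply, Equiv.swap_apply_left]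
      rw [← hπ.2, Equiv.apply_symm_apply]
    · intro π hπ
      rw [mem_filter] at hπ ⊢
      refine ⟨mem_univ _, ?_⟩
      rw [Equiv.Perm.mul_apply, Equiv.swap_apply_of_ne_of_ne hx.symm hy.symm]
      rw [Equiv.symm_apply_eq, Equiv.Perm.mul_apply, Equiv.swap_apply_right]
      rw [← hπ.2, Equiv.apply_symm_apply]
    · intro π _
      simp [mul_assoc]
    · intro π _
      simp [mul_assoc]
  have h2 : c h = 0 := by
    rw [hc]
    simp only
    rw [card_eq_zero, filter_eq_empty_iff]
    intro π _ h3
    rw [Equiv.symm_apply_eq] at h3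
    exact flip_ne i _ h3
  have h3 : ∑ y, c y = Fintype.card (Equiv.Perm (Cube n)) := by
    rw [← card_univ, hc]
    exact (card_eq_sum_card_fiberwise (f := fun π : Equiv.Perm (Cube n) =>
      π.symm (flip i (π h))) (fun _ _ => mem_univ _)).symm
  rw [← h3, ← add_sum_erase _ _ (mem_univ h), h2, zero_add,
    sum_congr rfl (fun y hy => h1 y (ne_of_mem_erase hy)), sum_const, card_erase_of_mem (mem_univ _),
    card_univ, smul_eq_mul, mul_comm, card_cube]

/-- The average number of bad points. -/
lemma sum_bad (i : Fin n) :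
    (∑ π : Equiv.Perm (Cube n), ((bad H R i π).card : ℝ)) * (2 ^ n - 1) ≤
      H.card * (2 ^ n - (light H R).card) * Fintype.card (Equiv.Perm (Cube n)) := by
  classical
  have hpow : (1 : ℕ) ≤ 2 ^ n := Nat.one_le_two_pow
  have h1 : ∀ h ∈ H, (((univ.filter fun π : Equiv.Perm (Cube n) =>
      ¬ π.symm (flip i (π h)) ∈ light H R).card : ℕ) : ℝ) * (2 ^ n - 1) ≤
        (2 ^ n - (light H R).card) * Fintype.card (Equiv.Perm (Cube n)) := by
    intro h hh
    have h2 : (univ.filter fun π : Equiv.Perm (Cube n) =>
        ¬ π.symm (flip i (π h)) ∈ light H R).card =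
        ∑ x ∈ univ.filter (fun x => ¬ x ∈ light H R),
          (univ.filter fun π : Equiv.Perm (Cube n) => π.symm (flip i (π h)) = x).card := by
      rw [card_eq_sum_card_fiberwise (f := fun π : Equiv.Perm (Cube n) =>
        π.symm (flip i (π h))) (t := univ.filter fun x => ¬ x ∈ light H R)]
      · refine sum_congr rfl fun x hx => ?_
        rw [filter_filter]
        congr 1
        ext π
        rw [mem_filter, mem_filter]
        constructor
        · rintro ⟨h3, -, h4⟩
          exact ⟨h3, h4⟩
        · rintro ⟨h3, h4⟩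
          refine ⟨h3, ?_, h4⟩
          rw [h4]
          exact (mem_filter.1 hx).2
      · intro π hπ
        simpa using hπ
    have h3 : ∀ x, (((univ.filter fun π : Equiv.Perm (Cube n) =>
        π.symm (flip i (π h)) = x).card : ℕ) : ℝ) * (2 ^ n - 1) ≤
          Fintype.card (Equiv.Perm (Cube n)) := by
      intro x
      by_cases hx : x = h
      · have h4 : (univ.filter fun π : Equiv.Perm (Cube n) =>
            π.symm (flip i (π h)) = x) = ∅ := by
          rw [filter_eq_empty_iff, hx]
          intro π _ h3
          rw [Equiv.symm_apply_eq] at h3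
          exact flip_ne i _ h3
        rw [h4]
        simp
      · have h4 := card_perm i h x hx
        rw [← h4]
        push_cast [Nat.cast_sub hpow]
        exact le_rfl
    rw [h2, Nat.cast_sum, sum_mul]
    refine (sum_le_sum fun x _ => h3 x).trans (le_of_eq ?_)
    rw [sum_const, nsmul_eq_mul]
    congr 1
    have h5 : (univ.filter fun x => ¬ x ∈ light H R) = univ \ light H R := by
      ext x
      simp
    rw [h5, card_sdiff_of_subset (subset_univ _), Nat.cast_sub (card_le_card (subset_univ _))]
    simp [Cube]
  calc (∑ π : Equiv.Perm (Cube n), ((bad H R i π).card : ℝ)) * (2 ^ n - 1)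
      = (∑ h ∈ H, (((univ.filter fun π : Equiv.Perm (Cube n) =>
          ¬ π.symm (flip i (π h)) ∈ light H R).card : ℕ) : ℝ)) * (2 ^ n - 1) := by
        congr 1
        unfold bad
        simp only [card_filter, Nat.cast_sum]
        rw [sum_comm]
    _ ≤ ∑ _h ∈ H, (2 ^ n - ((light H R).card : ℝ)) * Fintype.card (Equiv.Perm (Cube n)) := by
        rw [sum_mul]
        exact sum_le_sum h1
    _ = _ := by
        rw [sum_const, nsmul_eq_mul]
        ring

lemma card_light : 2 ^ n - H.card * (n + 1) ^ (2 * R) ≤ (light H R).card := by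
  classical
  have h1 : (univ : Finset (Cube n)) ⊆ light H R ∪ H.biUnion fun h => ball h (2 * R) := by
    intro x _
    rw [mem_union, mem_biUnion]
    by_cases hx : ∀ h ∈ H, 2 * R < hammingDist h x
    · left
      exact mem_filter.2 ⟨mem_univ _, hx⟩
    · right
      push Not at hx
      obtain ⟨h, hh, hle⟩ := hx
      exact ⟨h, hh, mem_ball.2 hle⟩
  have h2 := (card_le_card h1).trans (card_union_le _ _)
  have h3 : (H.biUnion fun h => ball h (2 * R)).card ≤ H.card * (n + 1) ^ (2 * R) := by
    refine card_biUnion_le.trans ?_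
    calc ∑ h ∈ H, (ball h (2 * R)).card ≤ ∑ _h ∈ H, (n + 1) ^ (2 * R) :=
          sum_le_sum fun h _ => card_ball_le h _
      _ = _ := by rw [sum_const, smul_eq_mul]
  rw [card_univ] at h2
  have h4 : Fintype.card (Cube n) = 2 ^ n := by simp [Cube]
  omega

end Example

/-! ### The theorem -/

lemma main (R : ℕ) {n : ℕ} (hn : 2 ≤ n)
    (hbig : n ^ 2 * (n + 1) ^ (2 * R) ≤ 2 ^ n) {c : ℝ} (hc : 4 < c * (R + 1)) :
    ∃ (D : Set (Cube n → ℝ)) (X : Cube n → ℝ) (ε : ℝ), IsClosedProperty D ∧ IsDist X ∧
      1 / (n : ℝ) ^ (4 * R + 6) ≤ ε ∧ IsFar D X ε ∧ farProb D X (c * ε) ≤ 2 / n := by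
  classical
  set N : ℕ := 2 ^ n with hN
  set W : ℕ := n ^ 2 * (n + 1) ^ (2 * R) with hW
  have hWpos : 0 < W := by positivity
  set M : ℕ := N / W with hM
  have hMpos : 1 ≤ M := (Nat.one_le_div_iff hWpos).2 hbig
  have hMW : M * W ≤ N := Nat.div_mul_le_self _ _
  have hMW2 : N < 2 * (M * W) := by
    have h1 : N < W * (N / W + 1) := by
      have := Nat.lt_mul_div_succ N hWpos
      simpa using this
    nlinarith
  have hNcard : Fintype.card (Cube n) = N := by simp [Cube, hN]
  have hMN : M ≤ (univ : Finset (Cube n)).card := by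
    rw [card_univ, hNcard]
    exact Nat.div_le_self _ _
  obtain ⟨H, -, hHc⟩ := exists_subset_card_eq hMN
  have hHne : H.Nonempty := by
    rw [← card_pos, hHc]
    omega
  have hn4 : 4 ≤ n ^ 2 := by nlinarith
  have hMV : 4 * (M * (n + 1) ^ (2 * R)) ≤ N := by
    calc 4 * (M * (n + 1) ^ (2 * R)) ≤ n ^ 2 * (M * (n + 1) ^ (2 * R)) :=
          Nat.mul_le_mul_right _ hn4
      _ = M * W := by rw [hW]; ring
      _ ≤ N := hMW
  have hL := card_light H R
  rw [hHc] at hL
  have hRpow : (n + 1) ^ R ≤ (n + 1) ^ (2 * R) := Nat.pow_le_pow_right (by omega) (by omega)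
  have hMR : M * (n + 1) ^ R ≤ M * (n + 1) ^ (2 * R) := Nat.mul_le_mul_left _ hRpow
  have hone : M ≤ M * (n + 1) ^ (2 * R) := Nat.le_mul_of_pos_right _ (by positivity)
  have hLne : (light H R).Nonempty := by
    rw [← card_pos]
    omega
  have hfar := isFar H R hHne hLne (by rw [hHc]; omega)
  set L : ℕ := (light H R).card with hLdef
  have hLN : L ≤ N := by
    rw [hLdef, ← hNcard, ← card_univ]
    exact card_le_card (subset_univ _)
  have hnpos : (0 : ℝ) < n := by exact_mod_cast (by omega : 0 < n)
  have hLpos : (0 : ℝ) < L := by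
    rw [hLdef]
    exact_mod_cast card_pos.2 hLne
  have hNpos : (0 : ℝ) < N := by
    rw [hN]
    positivity
  have hMpos' : (0 : ℝ) < M := by exact_mod_cast hMpos
  have hla : la H R = 1 / (2 * (L : ℝ)) := rfl
  have hlapos : 0 < la H R := by
    rw [hla]
    positivity
  refine ⟨theProp H R, dist H R, H.card * la H R / 2 * ((R + 1) / n), prop_closed _ _,
    isDist_dist H R hHne hLne, ?_, hfar, ?_⟩
  · -- the size of `ε`
    rw [hHc, hla]
    have h1 : (1 : ℝ) / (2 * N) ≤ 1 / (2 * (L : ℝ)) := by
      refine div_le_div_of_nonneg_left zero_le_one (by positivity) ?_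
      have : (L : ℝ) ≤ N := by exact_mod_cast hLN
      linarith
    have h2 : (N : ℝ) ≤ 2 * (M * W) := by exact_mod_cast hMW2.le
    have hWpos' : (0 : ℝ) < W := by exact_mod_cast hWpos
    have h3 : (1 : ℝ) / (2 * W) ≤ M / N := by
      rw [div_le_div_iff₀ (by positivity) hNpos]
      linarith
    have h4 : (W : ℝ) ≤ n ^ (4 * R + 2) := by
      have h5 : (n + 1) ^ (2 * R) ≤ n ^ (4 * R) := by
        calc (n + 1) ^ (2 * R) ≤ (n ^ 2) ^ (2 * R) := Nat.pow_le_pow_left (by nlinarith) _
          _ = n ^ (4 * R) := by rw [← pow_mul]; congr 1; ring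
      have h6 : W ≤ n ^ (4 * R + 2) := by
        rw [hW, pow_add, mul_comm]
        exact Nat.mul_le_mul_right _ h5
      exact_mod_cast h6
    have h8 : (8 : ℝ) ≤ (n : ℝ) ^ 3 := by
      have : (2 : ℝ) ≤ n := by exact_mod_cast hn
      calc (8 : ℝ) = 2 ^ 3 := by norm_num
        _ ≤ (n : ℝ) ^ 3 := pow_le_pow_left₀ (by norm_num) this 3
    calc (1 : ℝ) / n ^ (4 * R + 6) ≤ 1 / (8 * (W * n)) := by
          refine div_le_div_of_nonneg_left zero_le_one (by positivity) ?_
          calc 8 * ((W : ℝ) * n) ≤ (n : ℝ) ^ 3 * (n ^ (4 * R + 2) * n) := by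
                refine mul_le_mul h8 ?_ (by positivity) (by positivity)
                exact mul_le_mul_of_nonneg_right h4 hnpos.le
            _ = (n : ℝ) ^ (4 * R + 6) := by ring
      _ = 1 / (2 * W) * (1 / (4 * n)) := by field_simp; norm_num
      _ ≤ M / N * (1 / (4 * n)) := mul_le_mul_of_nonneg_right h3 (by positivity)
      _ = M * (1 / (2 * N)) / 2 * (1 / n) := by field_simp; norm_num
      _ ≤ M * (1 / (2 * L)) / 2 * ((R + 1) / n) := by
          have h9 : (1 : ℝ) / n ≤ (R + 1) / n := by
            refine div_le_div_of_nonneg_right ?_ hnpos.le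
            have : (0 : ℝ) ≤ R := Nat.cast_nonneg _
            linarith
          have h10 : (M : ℝ) * (1 / (2 * N)) / 2 ≤ M * (1 / (2 * L)) / 2 := by
            have := mul_le_mul_of_nonneg_left h1 hMpos'.le
            linarith
          exact mul_le_mul h10 h9 (by positivity) (by positivity)
  · -- the probability
    set i : Fin n := ⟨0, by omega⟩ with hi
    have hclose : ∀ π : Equiv.Perm (Cube n),
        IsFar (theProp H R) (push π (dist H R)) (c * (H.card * la H R / 2 * ((R + 1) / n))) →
          (M : ℝ) / n ≤ (bad H R i π).card := by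
      intro π hπ
      by_contra hlt
      push Not at hlt
      refine not_isFar H R i π hHne hLne (by rw [hHc]; omega) (by rw [hHc]; exact hlt.le) ?_ hπ
      rw [hHc]
      have h1 : c * (M * la H R / 2 * ((R + 1) / n)) = (c * (R + 1)) * (M * la H R / (2 * n)) := by
        field_simp
      rw [h1]
      have h2 : 2 * (M * la H R / n) = 4 * (M * la H R / (2 * n)) := by
        field_simp
        norm_num
      rw [h2]
      exact mul_lt_mul_of_pos_right hc (by positivity)
    set F := univ.filter fun π : Equiv.Perm (Cube n) =>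
      IsFar (theProp H R) (push π (dist H R)) (c * (H.card * la H R / 2 * ((R + 1) / n))) with hF
    set K : ℝ := ((Fintype.card (Equiv.Perm (Cube n)) : ℕ) : ℝ) with hK
    have hKpos : 0 < K := by
      rw [hK]
      exact_mod_cast Fintype.card_pos
    have h1 : (F.card : ℝ) * (M / n) ≤ ∑ π : Equiv.Perm (Cube n), ((bad H R i π).card : ℝ) := by
      calc (F.card : ℝ) * (M / n) = ∑ _π ∈ F, ((M : ℝ) / n) := by rw [sum_const, nsmul_eq_mul]
        _ ≤ ∑ π ∈ F, ((bad H R i π).card : ℝ) := by
            refine sum_le_sum fun π hπ => ?_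
            exact hclose π (mem_filter.1 hπ).2
        _ ≤ _ := sum_le_sum_of_subset_of_nonneg (subset_univ _) fun _ _ _ => Nat.cast_nonneg _
    have h2 := sum_bad H R i
    rw [hHc, ← hLdef, ← hK] at h2
    have hN2 : ((2 : ℝ) ^ n) = N := by rw [hN]; push_cast; rfl
    rw [hN2] at h2
    have h3 : (N : ℝ) - L ≤ N / n ^ 2 := by
      have h4 : (M : ℝ) * ((n : ℝ) + 1) ^ (2 * R) ≤ N / n ^ 2 := by
        rw [le_div_iff₀ (by positivity)]
        have h5 : M * (n + 1) ^ (2 * R) * n ^ 2 ≤ N := by
          calc M * (n + 1) ^ (2 * R) * n ^ 2 = M * W := by rw [hW]; ring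
            _ ≤ N := hMW
        exact_mod_cast h5
      have h6 : (N : ℝ) ≤ L + M * ((n : ℝ) + 1) ^ (2 * R) := by
        have h7 : N ≤ L + M * (n + 1) ^ (2 * R) := by omega
        exact_mod_cast h7
      linarith
    have hN1 : (N : ℝ) / 2 ≤ N - 1 := by
      have h4 : 2 ≤ N := by
        rw [hN]
        calc 2 = 2 ^ 1 := rfl
          _ ≤ 2 ^ n := Nat.pow_le_pow_right (by norm_num) (by omega)
      have h5 : (2 : ℝ) ≤ N := by exact_mod_cast h4
      linarith
    have h4 : (F.card : ℝ) * (M / n) * (N / 2) ≤ M * (N / n ^ 2) * K := by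
      calc (F.card : ℝ) * (M / n) * (N / 2) ≤ (F.card : ℝ) * (M / n) * (N - 1) :=
            mul_le_mul_of_nonneg_left hN1 (by positivity)
        _ ≤ (∑ π : Equiv.Perm (Cube n), ((bad H R i π).card : ℝ)) * (N - 1) :=
            mul_le_mul_of_nonneg_right h1 (by linarith)
        _ ≤ M * (N - L) * K := h2
        _ ≤ M * (N / n ^ 2) * K := by
            refine mul_le_mul_of_nonneg_right ?_ hKpos.le
            exact mul_le_mul_of_nonneg_left h3 hMpos'.le
    unfold farProb
    rw [div_le_div_iff₀ hKpos hnpos]
    have h5 : (F.card : ℝ) * (M / n) * (N / 2) = (F.card * n) * (M * N / (2 * n ^ 2)) := by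
      field_simp
    have h6 : (M : ℝ) * (N / n ^ 2) * K = (2 * K) * (M * N / (2 * n ^ 2)) := by
      field_simp
    rw [h5, h6] at h4
    exact le_of_mul_le_mul_right h4 (by positivity)

/-- **Random relabeling can decrease the distance from a property.** There is no universal constant
`c` as in the question. Moreover, for every `c > 0` there is `C` such that for all large `n` there
are a property closed under mapping and a distribution `X` which is `ε`-far from it for some
`ε ≥ 1 / n ^ C`, such that `π(X)` is `c ε`-far from the property only with probability at most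
`2 / n` over a random bijection `π`. -/
theorem result :
    (¬ ∃ c : ℝ, 0 < c ∧ ∃ δ : ℕ → ℝ, Tendsto δ atTop (𝓝 0) ∧
      ∀ n : ℕ, 1 ≤ n → ∀ D : Set (Cube n → ℝ), IsClosedProperty D → ∀ ε : ℝ, 0 < ε →
        ∀ X : Cube n → ℝ, IsDist X → IsFar D X ε → 1 - δ n ≤ farProb D X (c * ε)) ∧
    ∀ c : ℝ, 0 < c → ∃ C : ℕ, ∀ᶠ n : ℕ in atTop,
      ∃ (D : Set (Cube n → ℝ)) (X : Cube n → ℝ) (ε : ℝ), IsClosedProperty D ∧ IsDist X ∧
        1 / (n : ℝ) ^ C ≤ ε ∧ IsFar D X ε ∧ farProb D X (c * ε) ≤ 2 / n := by
  have key : ∀ c : ℝ, 0 < c → ∃ C : ℕ, ∀ᶠ n : ℕ in atTop,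
      ∃ (D : Set (Cube n → ℝ)) (X : Cube n → ℝ) (ε : ℝ), IsClosedProperty D ∧ IsDist X ∧
        1 / (n : ℝ) ^ C ≤ ε ∧ IsFar D X ε ∧ farProb D X (c * ε) ≤ 2 / n := by
    intro c hc
    obtain ⟨R, hR⟩ := exists_nat_gt (4 / c)
    have hR' : 4 < c * (R + 1) := by
      rw [div_lt_iff₀ hc] at hR
      nlinarith
    refine ⟨4 * R + 6, ?_⟩
    have hlim : Tendsto (fun n : ℕ => ((n : ℝ) ^ (4 * R + 4)) / 2 ^ n) atTop (𝓝 0) := by
      have := tendsto_pow_const_div_const_pow_of_one_lt (4 * R + 4) (show (1 : ℝ) < 2 by norm_num)
      exact this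
    have hev := hlim.eventually (gt_mem_nhds (show (0 : ℝ) < 1 by norm_num))
    filter_upwards [hev, eventually_ge_atTop 2] with n hn1 hn2
    refine main R hn2 ?_ hR'
    rw [div_lt_one (by positivity)] at hn1
    have h1 : n ^ (4 * R + 4) ≤ 2 ^ n := by exact_mod_cast hn1.le
    refine le_trans ?_ h1
    calc n ^ 2 * (n + 1) ^ (2 * R) ≤ n ^ 2 * (n ^ 2) ^ (2 * R) :=
          Nat.mul_le_mul_left _ (Nat.pow_le_pow_left (by nlinarith) _)
      _ = n ^ (4 * R + 2) := by rw [← pow_mul, ← pow_add]; congr 1; ring
      _ ≤ n ^ (4 * R + 4) := Nat.pow_le_pow_right (by omega) (by omega)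
  refine ⟨?_, key⟩
  rintro ⟨c, hc, δ, hδ, h⟩
  obtain ⟨C, hC⟩ := key c hc
  have h1 : Tendsto (fun n : ℕ => (2 : ℝ) / n) atTop (𝓝 0) :=
    tendsto_const_div_atTop_nhds_zero_nat 2
  have h2 := (hδ.add h1).eventually (gt_mem_nhds (show (0 : ℝ) + 0 < 1 by norm_num))
  obtain ⟨n, hn1, hn2, D, X, ε, hD, hX, hε, hfar, hprob⟩ :=
    (h2.and ((eventually_ge_atTop 1).and hC)).exists
  have hεpos : 0 < ε := by
    refine lt_of_lt_of_le ?_ hε
    have : (0 : ℝ) < n := by exact_mod_cast hn2
    positivity
  have h3 := h n hn2 D hD ε hεpos X hX hfar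
  linarith

end Pool.Agent.Results.MP_3e89d2_lc.RandomRelabeling
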